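import Pool.Agent.Q41.SP.Stm5

/-!
# Frames from a quadratic relation (V1)
-/

namespace Pool.Agent.Q238.SP

open Finset Polynomial
open Pool.Agent.Q41.SU
open Pool.Agent.Q41.SP

universe u

lemma der_cross {k E : Type*} [Field k] [Field E] [Algebra k E] (D : Derivation k E E)
    (α β γ a b c x : E) (ha : D a = α * a ^ 2 + β * a + γ) (hb : D b = α * b ^ 2 + β * b + γ)
    (hc : D c = α * c ^ 2 + β * c + γ) (hx : D x = α * x ^ 2 + β * x + γ) :
    D (((x - a) * (b - c)) / ((x - c) * (b - a))) = 0 := by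
  rw [Derivation.leibniz_div]
  simp only [Derivation.leibniz, map_sub, hx, ha, hb, hc, smul_eq_mul]
  apply mul_eq_zero_of_right
  ring

theorem frmP : S_frmP.{u} := by
  intro l k E _ _ _ _ _ τ D hτ α β γ T hT hq
  obtain ⟨a, ha, b, hb, c, hc, hab, hac, hbc⟩ : ∃ a ∈ T, ∃ b ∈ T, ∃ c ∈ T, a ≠ b ∧ a ≠ c ∧ b ≠ c := by
    obtain ⟨a, b, c, ha, hb, hc, hab, hac, hbc⟩ := Finset.two_lt_card_iff.1 hT
    exact ⟨a, ha, b, hb, c, hc, hab, hac, hbc⟩
  have hba : b - a ≠ 0 := sub_ne_zero.2 (Ne.symm hab)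
  have hbc' : b - c ≠ 0 := sub_ne_zero.2 hbc
  have hac' : a - c ≠ 0 := sub_ne_zero.2 hac
  refine ⟨⟨(b - a) * c, -(a * (b - c)), b - a, -(b - c)⟩, c, ?_, ?_⟩
  · have : (Mb.det ⟨(b - a) * c, -(a * (b - c)), b - a, -(b - c)⟩ : E) =
        (b - a) * (b - c) * (a - c) := by
      unfold Mb.det
      ring
    rw [this]
    exact mul_ne_zero (mul_ne_zero hba hbc') hac'
  · intro x hx hxc
    have hxc' : x - c ≠ 0 := sub_ne_zero.2 hxc
    obtain ⟨w, hw⟩ := hτ.ker _ (der_cross D α β γ a b c x (hq a ha) (hq b hb) (hq c hc) (hq x hx))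
    refine ⟨w, ?_⟩
    rw [pow_one, ← hw]
    have hden : (Mb.den ⟨(b - a) * c, -(a * (b - c)), b - a, -(b - c)⟩
        (((x - a) * (b - c)) / ((x - c) * (b - a))) : E) = (b - c) * (c - a) / (x - c) := by
      unfold Mb.den
      field_simp
      ring
    have hd0 : (Mb.den ⟨(b - a) * c, -(a * (b - c)), b - a, -(b - c)⟩
        (((x - a) * (b - c)) / ((x - c) * (b - a))) : E) ≠ 0 := by
      rw [hden]
      exact div_ne_zero (mul_ne_zero hbc' (sub_ne_zero.2 (Ne.symm hac))) hxc'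
    refine ⟨hd0, ?_⟩
    unfold Mb.app
    rw [eq_div_iff hd0, hden]
    field_simp
    ring

end Pool.Agent.Q238.SP
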