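import Pool.Agent.Q41.SP.Stm5

/-!
# Descent of orbits (V3)
-/

namespace Pool.Agent.Q238.SP

open Finset Polynomial
open Pool.Agent.Q41.SU
open Pool.Agent.Q41.SP

universe u

lemma eval_hcm' {E : Type*} [Field E] (d : ℕ) (A u v : E[X]) (hA : A.natDegree ≤ d) (c : E)
    (hv : v.eval c ≠ 0) :
    (hcm d A u v).eval c = (v.eval c) ^ d * A.eval (u.eval c / v.eval c) := by
  unfold hcm
  rw [eval_finsetSum, Polynomial.eval_eq_sum_range' (Nat.lt_succ_of_le hA), Finset.mul_sum]
  refine Finset.sum_congr rfl fun i hi => ?_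
  have hi' : i ≤ d := Nat.lt_succ_iff.1 (Finset.mem_range.1 hi)
  simp only [eval_mul, eval_C, eval_pow]
  rw [div_pow]
  have : (v.eval c) ^ d = (v.eval c) ^ (d - i) * (v.eval c) ^ i := by
    rw [← pow_add, Nat.sub_add_cancel hi']
  rw [this]
  field_simp

theorem dnP : S_dnP.{u} := by
  intro l K d E _ _ _ p q p₀ q₀ μ hpq hov n x hseg hsub
  classical
  obtain ⟨hdet, hrm', heq⟩ := hov
  choose! z hz1 hz2 using hsub
  have key : ∀ j, j + 1 < n → q₀.eval (z j) ≠ 0 ∧ z (j + 1) = p₀.eval (z j) / q₀.eval (z j) := by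
    intro j hj
    have hj' : j < n := by omega
    obtain ⟨hq, hx⟩ := hseg.step j hj
    have h1 := hz1 j hj'
    have h2 := hz2 j hj'
    have h1' := hz1 (j + 1) hj
    have h2' := hz2 (j + 1) hj
    set c := z j ^ l ^ K with hc
    set c' := z (j + 1) ^ l ^ K with hc'
    have hE := congrArg (Polynomial.eval c) heq
    have hvc : (C μ.γ * X + C μ.δ : E[X]).eval c = μ.den c := by
      simp [Mb.den]
    have huc : (C μ.α * X + C μ.β : E[X]).eval c = μ.α * c + μ.β := by
      simp
    have hpd : p.natDegree ≤ d := hpq.deg ▸ le_max_left _ _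
    have hqd : q.natDegree ≤ d := hpq.deg ▸ le_max_right _ _
    rw [eval_mul, eval_mul, eval_hcm' d p _ _ hpd c (by rw [hvc]; exact h1),
      eval_hcm' d q _ _ hqd c (by rw [hvc]; exact h1), hvc, huc] at hE
    have happ : (μ.α * c + μ.β) / μ.den c = x j := by
      rw [h2]
      rfl
    rw [happ] at hE
    have hP : (p₀.map (iterateFrobenius E l K)).eval c = (p₀.eval (z j)) ^ l ^ K := by
      have : c = iterateFrobenius E l K (z j) := by
        rw [iterateFrobenius_def]
      rw [this, Polynomial.eval_map_apply, iterateFrobenius_def]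
    have hQ : (q₀.map (iterateFrobenius E l K)).eval c = (q₀.eval (z j)) ^ l ^ K := by
      have : c = iterateFrobenius E l K (z j) := by
        rw [iterateFrobenius_def]
      rw [this, Polynomial.eval_map_apply, iterateFrobenius_def]
    simp only [eval_add, eval_mul, eval_C] at hE
    rw [hP, hQ] at hE
    set P := (p₀.eval (z j)) ^ l ^ K with hPdef
    set Q := (q₀.eval (z j)) ^ l ^ K with hQdef
    have hE2 : p.eval (x j) * (μ.γ * P + μ.δ * Q) = q.eval (x j) * (μ.α * P + μ.β * Q) := by
      have hd : (μ.den c) ^ d ≠ 0 := pow_ne_zero _ h1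
      apply mul_left_cancel₀ hd
      linear_combination hE
    have hE3 : x (j + 1) * (μ.γ * P + μ.δ * Q) = μ.α * P + μ.β * Q := by
      rw [hx, div_mul_eq_mul_div, div_eq_iff hq]
      linear_combination hE2
    have hE4 : x (j + 1) * (μ.γ * c' + μ.δ) = μ.α * c' + μ.β := by
      rw [h2']
      unfold Mb.app
      exact div_mul_cancel₀ _ h1'
    have hden' : μ.γ * c' + μ.δ ≠ 0 := h1'
    have hE5 : μ.det * (c' * Q - P) = 0 := by
      unfold Mb.det
      have h6 : (μ.α * c' + μ.β) * (μ.γ * P + μ.δ * Q) = (μ.α * P + μ.β * Q) * (μ.γ * c' + μ.δ) := by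
        rw [← hE4, ← hE3]
        ring
      linear_combination h6
    have hE6 : c' * Q = P := by
      rcases mul_eq_zero.1 hE5 with h | h
      · exact absurd h hdet
      · exact sub_eq_zero.1 h
    have hQ0 : Q ≠ 0 := by
      intro h0
      have hP0 : P = 0 := by rw [← hE6, h0, mul_zero]
      obtain ⟨a, b, hab⟩ := hrm'.co
      have := congrArg (Polynomial.eval c) hab
      simp only [eval_add, eval_mul, eval_one] at this
      rw [hP, hQ, h0, hP0] at this
      simp at this
    have hq0 : q₀.eval (z j) ≠ 0 := by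
      intro h0
      apply hQ0
      rw [hQdef, h0, zero_pow]
      exact pow_ne_zero _ (Fact.out : l.Prime).ne_zero
    refine ⟨hq0, ?_⟩
    rw [eq_div_iff hq0]
    apply iterateFrobenius_inj E l K
    rw [map_mul, iterateFrobenius_def, iterateFrobenius_def, iterateFrobenius_def]
    exact hE6
  refine ⟨z, ⟨?_, key⟩, fun j hj => ⟨hz1 j hj, hz2 j hj⟩⟩
  intro i hi j hj hij
  apply hseg.inj i hi j hj
  rw [hz2 i hi, hz2 j hj, hij]

end Pool.Agent.Q238.SP
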